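import Pool.Agent.T2H37.PZ.P_FIN
import Pool.Agent.T2H37.PZ.P_MID
import Pool.Agent.T2H37.PZ.P_DA
import Pool.Agent.T2H37.PZ.P_DB
import Pool.Agent.T2H37.PZ.P_HOM
import Pool.Agent.T2H37.PZ.P_NON
import Pool.Agent.T2H37.PZ.P_REP

/-!
# A necessary and sufficient condition for the weak Lefschetz property of Perazzo algebras

Let `F = X_0 p_0 + ⋯ + X_n p_n + G` be a Perazzo form of degree `d` (`p_j` forms of degree `d - 1`, `G` a form of degree `d`
in the variables `U_1, …, U_m`), `A_F = R / Ann F` its algebra, `I = Ann(p_0, …, p_n)` in `K[u] = K[u_1, …, u_m]`, and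
`B = K[u] / I` the level algebra of the `p_j`, of socle degree `d - 1`. Put `i = ⌊(d - 1) / 2⌋` and
`e = d - 1 - i = ⌊d / 2⌋`. The theorem: `A_F` has the weak Lefschetz property if and only if there are a linear form
`l` of `K[u]` and a form `q` in the span of the `p_j` such that

(1) `l : B_e → B_(e + 1)` is surjective, and

(2) if `f` of degree `i` with `l f ∈ I` satisfies `(f g) ∘ q + (l f g) ∘ G = 0` for all `g` of degree `e` with `l g ∈ I`, then
`f ∈ I`, and `f ∘ G` is in the space `M` of the `∑ g_j ∘ p_j`, `g_j` of degree `i - 1`.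

So the weak Lefschetz property of the Gorenstein algebra `A_F` with `n + 1 + m` variables is reduced to the level algebra
`B`, and the form `G`, in `m` variables and in the middle degrees: the bilinear form
`(f, g) ↦ (f g) ∘ q + (l f g) ∘ G` on `(I : l)_i × (I : l)_e` has the left kernel `{f ∈ I_i : f ∘ G ∈ M}`, the smallest
possible one. There are no hypotheses on `n`, `m`, `d ≥ 3` and the `p_j` (for `n ≥ m` linear independence of the `p_j`
implies `d ≥ 3`).
-/

set_option autoImplicit false

namespace Pool.Agent.Results.MP_cb732f_ag.Criterion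

open MvPolynomial Pool.Agent.T2H37.PZ

/-- `act g F` is the differential operator `g` applied to `F`; `ann F` the annihilator of `F`; `WLP F` the weak Lefschetz
property of `A_F`; `perazzo p G = ∑ X_j p_j + G`. -/
theorem result (K : Type) [Field K] [CharZero K] (n m d : ℕ) (hd : 3 ≤ d)
    (p : Fin (n + 1) → MvPolynomial (Fin m) K) (G : MvPolynomial (Fin m) K)
    (hp : ∀ j, (p j).IsHomogeneous (d - 1)) (hG : G.IsHomogeneous d) :
    WLP (perazzo p G) ↔
      ∃ l : MvPolynomial (Fin m) K, l.IsHomogeneous 1 ∧ ∃ q ∈ Submodule.span K (Set.range p),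
        (∀ w : MvPolynomial (Fin m) K, w.IsHomogeneous (d - (d - 1) / 2) →
          ∃ f : MvPolynomial (Fin m) K, f.IsHomogeneous (d - 1 - (d - 1) / 2) ∧ ∀ j, w - l * f ∈ ann (p j)) ∧
        ∀ f : MvPolynomial (Fin m) K, f.IsHomogeneous ((d - 1) / 2) → (∀ j, l * f ∈ ann (p j)) →
          (∀ g : MvPolynomial (Fin m) K, g.IsHomogeneous (d - 1 - (d - 1) / 2) → (∀ j, l * g ∈ ann (p j)) →
            act (f * g) q + act (l * f * g) G = 0) →
          (∀ j, f ∈ ann (p j)) ∧
            ∃ g : Fin (n + 1) → MvPolynomial (Fin m) K, (∀ j, (g j).IsHomogeneous ((d - 1) / 2 - 1)) ∧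
              act f G = ∑ j, act (g j) (p j) :=
  pFIN pHOM (pMID pHOM pNON pREP) (pDA pHOM pNON pREP) (pDB pHOM pNON pREP) K n m d hd p G hp hG

end Pool.Agent.Results.MP_cb732f_ag.Criterion
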