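import Pool.Agent.T2H37.PZ.Num
import Pool.Agent.T2H37.PZ.P_MID
import Pool.Agent.T2H37.PZ.P_HOM
import Pool.Agent.T2H37.PZ.P_NON
import Pool.Agent.T2H37.PZ.P_REP
import Pool.Agent.T2H37.PZ.P_DIM
import Pool.Agent.T2H37.PZ.P_PTS

/-!
# The numbers `n`, `m`, `d` for which there is a Perazzo algebra with the weak Lefschetz property

Let `d ≥ 3`, `m ≥ 1` and `n ≥ 0`. There are a Perazzo form `F = ∑ X_j p_j + G` of degree `d`, with `n + 1` linearly
independent forms `p_j` of degree `d - 1` in `m` variables, and any form `G`, such that `A_F` has the weak Lefschetz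
property, if and only if `n + 1` is at most the number `choose (m - 1 + ⌊d / 2⌋) (m - 1)` of monomials of degree `⌊d / 2⌋`.
-/

set_option autoImplicit false

namespace Pool.Agent.Results.MP_cb732f_ag.NumericalRange

open MvPolynomial Pool.Agent.T2H37.PZ

/-- `WLP F` is the weak Lefschetz property of `A_F`; `perazzo p G = ∑ X_j p_j + G`. -/
theorem result (K : Type) [Field K] [CharZero K] (n m d : ℕ) (hm : 1 ≤ m) (hd : 3 ≤ d) :
    (∃ (p : Fin (n + 1) → MvPolynomial (Fin m) K) (G : MvPolynomial (Fin m) K),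
      (∀ j, (p j).IsHomogeneous (d - 1)) ∧ LinearIndependent K p ∧ G.IsHomogeneous d ∧ WLP (perazzo p G)) ↔
    n + 1 ≤ (m - 1 + d / 2).choose (m - 1) := by
  obtain ⟨m, rfl⟩ : ∃ m', m = m' + 1 := ⟨m - 1, by omega⟩
  rw [Nat.add_sub_cancel]
  constructor
  · rintro ⟨p, G, hp, hLI, hG, hW⟩
    exact nec pHOM (pMID pHOM pNON pREP) pDIM K n m d hd p G hp hG hLI hW
  · intro hn
    exact suf (pMID pHOM pNON pREP) (pPTS pREP) K n m d hd hn

end Pool.Agent.Results.MP_cb732f_ag.NumericalRange
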