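import Pool.Agent.T2H37.PZ.Pow
import Pool.Agent.T2H37.PZ.P_MID
import Pool.Agent.T2H37.PZ.P_HOM
import Pool.Agent.T2H37.PZ.P_NON
import Pool.Agent.T2H37.PZ.P_REP

/-!
# The weak Lefschetz property of the Perazzo algebras whose `p_j` are powers of linear forms

Let `L_j = ∑ a_(j,k) U_k`, `j = 0, …, n`, be linear forms in `m` variables, given by points `a_j`, such that the
`L_j ^ (d - 1)` are linearly independent, and `F = ∑ X_j L_j ^ (d - 1) + G`. Assume that for all `f` of degree
`⌊(d - 1) / 2⌋` which vanish at all points `a_j`, `f ∘ G` is in the span of the `L_j ^ (⌊d / 2⌋ + 1)`. This holds if `G = 0`,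
if `G` is in the span of the `L_j ^ d`, and for all `G` if no form of degree `⌊(d - 1) / 2⌋` vanishes at all points.
Then `A_F` has the weak Lefschetz property if and only if the powers `L_j ^ ⌊d / 2⌋` are linearly independent, that is, if
the points `a_j` impose independent conditions on the forms of degree `⌊d / 2⌋`.

The `h`-vector of `A_F` is (for `G = 0`) `h_i = H(i) + H(d - i)`, with the Hilbert function `H` of the set of points, so
these are in general neither the minimal nor the maximal `h`-vectors.
-/

set_option autoImplicit false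

namespace Pool.Agent.Results.MP_cb732f_ag.PowersOfLinearForms

open MvPolynomial Pool.Agent.T2H37.PZ

/-- `act g F` is the differential operator `g` applied to `F`; `WLP F` the weak Lefschetz property of `A_F`;
`perazzo p G = ∑ X_j p_j + G`; `lin a = ∑ a_k U_k`. -/
theorem result (K : Type) [Field K] [CharZero K] (n m d : ℕ) (hd : 3 ≤ d)
    (a : Fin (n + 1) → Fin m → K) (G : MvPolynomial (Fin m) K) (hG : G.IsHomogeneous d)
    (hp : LinearIndependent K fun j => lin (a j) ^ (d - 1))
    (hfG : ∀ f : MvPolynomial (Fin m) K, f.IsHomogeneous ((d - 1) / 2) → (∀ j, eval (a j) f = 0) →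
      act f G ∈ Submodule.span K (Set.range fun j => lin (a j) ^ (d / 2 + 1))) :
    WLP (perazzo (fun j => lin (a j) ^ (d - 1)) G) ↔ LinearIndependent K fun j => lin (a j) ^ (d / 2) :=
  powers (pMID pHOM pNON pREP) K n m d hd a G hG hp hfG

end Pool.Agent.Results.MP_cb732f_ag.PowersOfLinearForms
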